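import Pool.Agent.Helper16.MD.Stmts

set_option autoImplicit false

open Finset Filter
open scoped ComplexConjugate

namespace Pool.Agent.Helper16.MD

theorem shf_Icc {E : Type} [AddCommMonoid E] (f : ℕ → E) (M : ℕ) :
    ∑ y ∈ Icc 1 M, f y = ∑ y ∈ range M, f (y + 1) := by
  induction M with
  | zero => simp
  | succ M ih => rw [Finset.sum_Icc_succ_top (by omega), ih, Finset.sum_range_succ]

theorem shf_shift {F : ℕ → ℂ} (hF : ∀ x, ‖F x‖ ≤ 1) (M k : ℕ) :
    ‖∑ y ∈ range M, F (y + 1) - ∑ y ∈ range M, F (y + 1 + k)‖ ≤ 2 * k := by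
  induction k with
  | zero => simp
  | succ k ih =>
    have h1 : ∑ y ∈ range M, F (y + 1 + k) - ∑ y ∈ range M, F (y + 1 + (k + 1)) =
        F (0 + 1 + k) - F (M + 1 + k) := by
      have h := Finset.sum_range_sub' (fun i => F (i + 1 + k)) M
      rw [Finset.sum_sub_distrib] at h
      rw [← h]
      congr 1
      apply Finset.sum_congr rfl
      intro y _
      congr 1
      omega
    have h2 : ∑ y ∈ range M, F (y + 1) - ∑ y ∈ range M, F (y + 1 + (k + 1)) =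
        (∑ y ∈ range M, F (y + 1) - ∑ y ∈ range M, F (y + 1 + k)) +
        (∑ y ∈ range M, F (y + 1 + k) - ∑ y ∈ range M, F (y + 1 + (k + 1))) := by ring
    rw [h2, h1]
    have h3 := norm_add_le (∑ y ∈ range M, F (y + 1) - ∑ y ∈ range M, F (y + 1 + k))
      (F (0 + 1 + k) - F (M + 1 + k))
    have h4 := norm_sub_le (F (0 + 1 + k)) (F (M + 1 + k))
    have h5 := hF (0 + 1 + k)
    have h6 := hF (M + 1 + k)
    push_cast
    linarith

/-- the sum of a periodic function over a long interval -/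
theorem shf_per {u : ℕ → ℝ} {D : ℕ} (hD : 1 ≤ D) (h0 : ∀ x, 0 ≤ u x) (h1 : ∀ x, u x ≤ 1)
    (hp : ∀ x, u (x + D) = u x) (M : ℕ) :
    ∑ y ∈ range M, u (y + 1) ≤ (M : ℝ) / D * ∑ z ∈ range D, u z + D := by
  have hq : ∀ q x : ℕ, u (x + D * q) = u x := by
    intro q
    induction q with
    | zero => intro x; simp
    | succ q ih =>
      intro x
      rw [Nat.mul_succ, ← Nat.add_assoc, hp, ih]
  have hs : ∑ z ∈ range D, u (z + 1) = ∑ z ∈ range D, u z := by
    have e1 := Finset.sum_range_succ u D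
    have e2 := Finset.sum_range_succ' u D
    have e3 := hp 0
    rw [Nat.zero_add] at e3
    linarith
  have hm : ∀ q : ℕ, ∑ y ∈ range (D * q), u (y + 1) = q * ∑ z ∈ range D, u z := by
    intro q
    induction q with
    | zero => simp
    | succ q ih =>
      rw [Nat.mul_succ, Finset.sum_range_add, ih]
      have e1 : ∑ x ∈ range D, u (D * q + x + 1) = ∑ z ∈ range D, u (z + 1) := by
        apply Finset.sum_congr rfl
        intro z _
        rw [← hq q (z + 1)]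
        congr 1
        ring
      rw [e1, hs]
      push_cast
      ring
  have hM : D * (M / D) + M % D = M := Nat.div_add_mod M D
  have hlt : M % D < D := Nat.mod_lt _ hD
  have hD' : (0 : ℝ) < D := by exact_mod_cast hD
  have hS : 0 ≤ ∑ z ∈ range D, u z := Finset.sum_nonneg (fun z _ => h0 z)
  have e1 : ∑ y ∈ range M, u (y + 1) = ∑ y ∈ range (D * (M / D)), u (y + 1) +
      ∑ x ∈ range (M % D), u (D * (M / D) + x + 1) := by
    conv_lhs => rw [← hM]
    rw [Finset.sum_range_add]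
  have e2 : ∑ x ∈ range (M % D), u (D * (M / D) + x + 1) ≤ D := by
    have h2 : ∑ x ∈ range (M % D), u (D * (M / D) + x + 1) ≤ ∑ x ∈ range (M % D), (1 : ℝ) :=
      Finset.sum_le_sum (fun x _ => h1 _)
    rw [Finset.sum_const, Finset.card_range, nsmul_eq_mul, mul_one] at h2
    have h3 : ((M % D : ℕ) : ℝ) ≤ D := by exact_mod_cast hlt.le
    linarith
  have e3 : ((M / D : ℕ) : ℝ) ≤ (M : ℝ) / D := Nat.cast_div_le
  rw [e1, hm]
  have e4 := mul_le_mul_of_nonneg_right e3 hS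
  linarith

/-- few bad residues -/
theorem shf_bad {D P a m : ℕ} (hD : 1 ≤ D) (hP : P.Coprime D) :
    ∑ z ∈ range D, (if D ≤ (P * z + a) % D + m then (1 : ℝ) else 0) ≤ m := by
  rw [← Finset.sum_filter, Finset.sum_const, nsmul_eq_mul, mul_one]
  have h1 : ((range D).filter fun z => D ≤ (P * z + a) % D + m).card ≤ (Ico (D - m) D).card := by
    apply Finset.card_le_card_of_injOn (fun z => (P * z + a) % D)
    · intro z hz
      rw [Finset.mem_coe, Finset.mem_filter, Finset.mem_range] at hz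
      rw [Finset.mem_coe, Finset.mem_Ico]
      show D - m ≤ (P * z + a) % D ∧ (P * z + a) % D < D
      have := Nat.mod_lt (P * z + a) hD
      exact ⟨by omega, this⟩
    · intro z hz z' hz' h
      rw [Finset.mem_coe, Finset.mem_filter, Finset.mem_range] at hz hz'
      have h2 : P * z + a ≡ P * z' + a [MOD D] := h
      have h3 : P * z ≡ P * z' [MOD D] := Nat.ModEq.add_right_cancel' a h2
      have h4 : z ≡ z' [MOD D] := Nat.ModEq.cancel_left_of_coprime (Nat.Coprime.symm hP) h3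
      exact Nat.ModEq.eq_of_lt_of_lt h4 hz.1 hz'.1
  rw [Nat.card_Ico] at h1
  have h2 : ((range D).filter fun z => D ≤ (P * z + a) % D + m).card ≤ m := by omega
  exact_mod_cast h2

/-- the shift inside one period -/
theorem shf_FF {n Λ a P : ℕ} {φ G ω : ℕ → ℂ} (hn : 1 ≤ n) (hφ : ∀ x, φ (x + n) = φ x)
    (y h m : ℕ) (hm : n * (P * h) ≤ m) (hy : (P * y + a) % (n * Λ) + m < n * Λ) :
    FF n Λ a φ G ω (P * (y + n * h)) =
      (φ (P * y) * ω ((P * y + a) / (n * Λ))) * G ((P * y + a) / n + P * h) := by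
  have hq : ∀ q x : ℕ, φ (x + n * q) = φ x := by
    intro q
    induction q with
    | zero => intro x; simp
    | succ q ih =>
      intro x
      rw [Nat.mul_succ, ← Nat.add_assoc, hφ, ih]
  have e1 : P * (y + n * h) = P * y + n * (P * h) := by ring
  have e2 : P * y + n * (P * h) + a = P * y + a + n * (P * h) := by ring
  have e3 : (P * y + a + n * (P * h)) / n = (P * y + a) / n + P * h :=
    Nat.add_mul_div_left _ _ hn
  have e4 : (P * y + a + n * (P * h)) / (n * Λ) = (P * y + a) / (n * Λ) := by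
    have h1 : P * y + a + n * (P * h) =
        n * Λ * ((P * y + a) / (n * Λ)) + ((P * y + a) % (n * Λ) + n * (P * h)) := by
      have := Nat.div_add_mod (P * y + a) (n * Λ)
      omega
    rw [h1, Nat.mul_add_div (by omega), Nat.div_eq_of_lt (show (P * y + a) % (n * Λ) +
      n * (P * h) < n * Λ by omega)]
    rfl
  unfold FF
  rw [e1, e2, e3, e4, hq]
  ring

theorem st_SHF : ST_SHF := by
  intro n Λ a H P P' φ G ω hn hΛ hH hP hP' hc hc' hb hφ hG ε hε
  obtain ⟨D, hD⟩ : ∃ D, D = n * Λ := ⟨_, rfl⟩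
  have hD1 : 1 ≤ D := by
    rw [hD]
    exact Nat.one_le_iff_ne_zero.2 (Nat.mul_ne_zero (by omega) (by omega))
  have hn0 : (0 : ℝ) < n := by exact_mod_cast hn
  have hΛ0 : (0 : ℝ) < Λ := by exact_mod_cast hΛ
  have hH0 : (0 : ℝ) < H := by exact_mod_cast hH
  have hDr : (D : ℝ) = n * Λ := by rw [hD]; push_cast; ring
  have hD0 : (0 : ℝ) < D := by rw [hDr]; positivity
  have hF1 : ∀ x, ‖FF n Λ a φ G ω x‖ ≤ 1 := by
    intro x
    unfold FF
    rw [norm_mul, norm_mul]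
    have h1 := (hb x).1
    have h2 := (hb ((x + a) / n)).2.1
    have h3 := (hb ((x + a) / (n * Λ))).2.2
    exact mul_le_one₀ (mul_le_one₀ h1 (norm_nonneg _) h2) (norm_nonneg _) h3
  obtain ⟨F, hFd⟩ : ∃ F : ℕ → ℂ, F = fun y => FF n Λ a φ G ω (P * y) *
    conj (FF n Λ a φ G ω (P' * y)) := ⟨_, rfl⟩
  have hF : ∀ x, ‖F x‖ ≤ 1 := by
    intro x
    rw [hFd]
    show ‖FF n Λ a φ G ω (P * x) * conj (FF n Λ a φ G ω (P' * x))‖ ≤ 1
    rw [norm_mul, RCLike.norm_conj]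
    exact mul_le_one₀ (hF1 _) (norm_nonneg _) (hF1 _)
  obtain ⟨Gs, hGs⟩ : ∃ Gs : ℕ → ℂ, Gs = fun z => ∑ h ∈ range H,
    G ((P * z + a) / n + P * h) * conj (G ((P' * z + a) / n + P' * h)) := ⟨_, rfl⟩
  obtain ⟨g, hg⟩ : ∃ g : ℕ → ℝ, g = fun z => ‖Gs z‖ ^ 2 / (H : ℝ) ^ 2 := ⟨_, rfl⟩
  obtain ⟨b, hbd⟩ : ∃ b : ℕ → ℕ → ℝ, b = fun Q z =>
    if D ≤ (Q * z + a) % D + n * Q * H then (1 : ℝ) else 0 := ⟨_, rfl⟩
  obtain ⟨T, hT⟩ : ∃ T : ℕ → ℂ, T = fun y => ∑ h ∈ range H, F (y + n * h) := ⟨_, rfl⟩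
  have hGsn : ∀ z, ‖Gs z‖ ≤ H := by
    intro z
    rw [hGs]
    refine (norm_sum_le _ _).trans ?_
    have h1 : ∑ h ∈ range H, ‖G ((P * z + a) / n + P * h) *
        conj (G ((P' * z + a) / n + P' * h))‖ ≤ ∑ _h ∈ range H, (1 : ℝ) := by
      apply Finset.sum_le_sum
      intro h _
      rw [norm_mul, RCLike.norm_conj]
      exact mul_le_one₀ (hb _).2.1 (norm_nonneg _) (hb _).2.1
    rwa [Finset.sum_const, Finset.card_range, nsmul_eq_mul, mul_one] at h1
  have hTn : ∀ y, ‖T y‖ ≤ H := by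
    intro y
    rw [hT]
    refine (norm_sum_le _ _).trans ?_
    have h1 : ∑ h ∈ range H, ‖F (y + n * h)‖ ≤ ∑ _h ∈ range H, (1 : ℝ) :=
      Finset.sum_le_sum (fun h _ => hF _)
    rwa [Finset.sum_const, Finset.card_range, nsmul_eq_mul, mul_one] at h1
  have hg0 : ∀ z, 0 ≤ g z := by
    intro z
    rw [hg]
    positivity
  have hg1 : ∀ z, g z ≤ 1 := by
    intro z
    rw [hg]
    show ‖Gs z‖ ^ 2 / (H : ℝ) ^ 2 ≤ 1
    rw [div_le_one (by positivity)]
    exact pow_le_pow_left₀ (norm_nonneg _) (hGsn z) 2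
  have hb0 : ∀ Q z, 0 ≤ b Q z := by
    intro Q z
    rw [hbd]
    show (0 : ℝ) ≤ if D ≤ (Q * z + a) % D + n * Q * H then (1 : ℝ) else 0
    split_ifs <;> norm_num
  have hb1 : ∀ Q z, b Q z ≤ 1 := by
    intro Q z
    rw [hbd]
    show (if D ≤ (Q * z + a) % D + n * Q * H then (1 : ℝ) else 0) ≤ 1
    split_ifs <;> norm_num
  -- periodicity
  have hGq : ∀ q x : ℕ, G (x + Λ * q) = G x := by
    intro q
    induction q with
    | zero => intro x; simp
    | succ q ih =>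
      intro x
      rw [Nat.mul_succ, ← Nat.add_assoc, hG, ih]
  have hGp : ∀ Q z h : ℕ, G ((Q * (z + D) + a) / n + Q * h) = G ((Q * z + a) / n + Q * h) := by
    intro Q z h
    have e1 : Q * (z + D) + a = Q * z + a + n * (Λ * Q) := by
      rw [hD]
      ring
    rw [e1, Nat.add_mul_div_left _ _ hn]
    have e2 : (Q * z + a) / n + Λ * Q + Q * h = (Q * z + a) / n + Q * h + Λ * Q := by ring
    rw [e2, hGq]
  have hgp : ∀ z, g (z + D) = g z := by
    intro z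
    rw [hg]
    show ‖Gs (z + D)‖ ^ 2 / (H : ℝ) ^ 2 = ‖Gs z‖ ^ 2 / (H : ℝ) ^ 2
    have e1 : Gs (z + D) = Gs z := by
      rw [hGs]
      show ∑ h ∈ range H, G ((P * (z + D) + a) / n + P * h) *
        conj (G ((P' * (z + D) + a) / n + P' * h)) = ∑ h ∈ range H,
        G ((P * z + a) / n + P * h) * conj (G ((P' * z + a) / n + P' * h))
      apply Finset.sum_congr rfl
      intro h _
      rw [hGp, hGp]
    rw [e1]
  have hbp : ∀ Q z, b Q (z + D) = b Q z := by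
    intro Q z
    rw [hbd]
    show (if D ≤ (Q * (z + D) + a) % D + n * Q * H then (1 : ℝ) else 0) =
      if D ≤ (Q * z + a) % D + n * Q * H then (1 : ℝ) else 0
    have e1 : Q * (z + D) + a = Q * z + a + D * Q := by ring
    rw [e1, Nat.add_mul_mod_self_left]
  -- the key inequality
  have hkey : ∀ y, ‖T y‖ ^ 2 ≤ (H : ℝ) ^ 2 * (g y + b P y + b P' y) := by
    intro y
    have t0 : ‖T y‖ ^ 2 ≤ (H : ℝ) ^ 2 := pow_le_pow_left₀ (norm_nonneg _) (hTn y) 2
    have t1 := hg0 y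
    have t2 := hb0 P y
    have t3 := hb0 P' y
    have t4 : (0 : ℝ) < (H : ℝ) ^ 2 := by positivity
    by_cases h1 : D ≤ (P * y + a) % D + n * P * H
    · have e1 : b P y = 1 := by
        rw [hbd]
        exact if_pos h1
      rw [e1]
      have : (H : ℝ) ^ 2 * 1 ≤ (H : ℝ) ^ 2 * (g y + 1 + b P' y) :=
        mul_le_mul_of_nonneg_left (by linarith) t4.le
      linarith
    by_cases h2 : D ≤ (P' * y + a) % D + n * P' * H
    · have e1 : b P' y = 1 := by
        rw [hbd]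
        exact if_pos h2
      rw [e1]
      have : (H : ℝ) ^ 2 * 1 ≤ (H : ℝ) ^ 2 * (g y + b P y + 1) :=
        mul_le_mul_of_nonneg_left (by linarith) t4.le
      linarith
    · rw [not_le] at h1 h2
      have e1 : T y = ((φ (P * y) * ω ((P * y + a) / (n * Λ))) *
          conj (φ (P' * y) * ω ((P' * y + a) / (n * Λ)))) * Gs y := by
        rw [hT, hGs, hFd]
        show ∑ h ∈ range H, FF n Λ a φ G ω (P * (y + n * h)) *
          conj (FF n Λ a φ G ω (P' * (y + n * h))) = _ * ∑ h ∈ range H, _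
        rw [Finset.mul_sum]
        apply Finset.sum_congr rfl
        intro h hh
        rw [Finset.mem_range] at hh
        have k1 : n * (P * h) ≤ n * P * H := by
          rw [← Nat.mul_assoc]
          exact Nat.mul_le_mul_left _ hh.le
        have k2 : n * (P' * h) ≤ n * P' * H := by
          rw [← Nat.mul_assoc]
          exact Nat.mul_le_mul_left _ hh.le
        rw [shf_FF hn hφ y h (n * P * H) k1 (by rw [← hD]; exact h1),
          shf_FF hn hφ y h (n * P' * H) k2 (by rw [← hD]; exact h2), map_mul]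
        ring
      have e2 : ‖T y‖ ≤ ‖Gs y‖ := by
        rw [e1, norm_mul]
        have k3 : ‖(φ (P * y) * ω ((P * y + a) / (n * Λ))) *
            conj (φ (P' * y) * ω ((P' * y + a) / (n * Λ)))‖ ≤ 1 := by
          rw [norm_mul, RCLike.norm_conj, norm_mul, norm_mul]
          exact mul_le_one₀ (mul_le_one₀ (hb _).1 (norm_nonneg _) (hb _).2.2)
            (by positivity) (mul_le_one₀ (hb _).1 (norm_nonneg _) (hb _).2.2)
        exact mul_le_of_le_one_left (norm_nonneg _) k3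
      have e3 : ‖T y‖ ^ 2 ≤ ‖Gs y‖ ^ 2 := pow_le_pow_left₀ (norm_nonneg _) e2 2
      have e4 : (H : ℝ) ^ 2 * g y = ‖Gs y‖ ^ 2 := by
        rw [hg]
        show (H : ℝ) ^ 2 * (‖Gs y‖ ^ 2 / (H : ℝ) ^ 2) = ‖Gs y‖ ^ 2
        field_simp
      have e5 : (H : ℝ) ^ 2 * g y ≤ (H : ℝ) ^ 2 * (g y + b P y + b P' y) :=
        mul_le_mul_of_nonneg_left (by linarith) t4.le
      linarith
  -- means
  have hV : ∑ z ∈ range D, g z = VV n Λ a H P P' G * D := by
    rw [hg, hDr]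
    show ∑ z ∈ range D, ‖Gs z‖ ^ 2 / (H : ℝ) ^ 2 = _
    unfold VV
    rw [← Finset.sum_div, hGs, hD]
    field_simp
  have hB : ∑ z ∈ range D, b P z ≤ (P : ℝ) * H / Λ * D := by
    have h1 := shf_bad (a := a) (m := n * P * H) hD1 (show P.Coprime D by rw [hD]; exact hc)
    have h2 : ((n * P * H : ℕ) : ℝ) = (P : ℝ) * H / Λ * D := by
      rw [hDr]
      push_cast
      field_simp
    rw [h2] at h1
    rw [hbd]
    exact h1
  have hB' : ∑ z ∈ range D, b P' z ≤ (P' : ℝ) * H / Λ * D := by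
    have h1 := shf_bad (a := a) (m := n * P' * H) hD1 (show P'.Coprime D by rw [hD]; exact hc')
    have h2 : ((n * P' * H : ℕ) : ℝ) = (P' : ℝ) * H / Λ * D := by
      rw [hDr]
      push_cast
      field_simp
    rw [h2] at h1
    rw [hbd]
    exact h1
  have hmean : ∀ M : ℕ, ∑ y ∈ range M, (g (y + 1) + b P (y + 1) + b P' (y + 1)) ≤
      (M : ℝ) * (VV n Λ a H P P' G + ((P : ℝ) + P') * H / Λ) + 3 * D := by
    intro M
    rw [Finset.sum_add_distrib, Finset.sum_add_distrib]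
    have h1 := shf_per hD1 hg0 hg1 hgp M
    have h2 := shf_per hD1 (hb0 P) (hb1 P) (hbp P) M
    have h3 := shf_per hD1 (hb0 P') (hb1 P') (hbp P') M
    have hMD : (0 : ℝ) ≤ (M : ℝ) / D := by positivity
    have h4 := mul_le_mul_of_nonneg_left hB hMD
    have h5 := mul_le_mul_of_nonneg_left hB' hMD
    have e1 : (M : ℝ) / D * (VV n Λ a H P P' G * D) = M * VV n Λ a H P P' G := by
      field_simp
    have e2 : (M : ℝ) / D * ((P : ℝ) * H / Λ * D) = M * ((P : ℝ) * H / Λ) := by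
      field_simp
    have e3 : (M : ℝ) / D * ((P' : ℝ) * H / Λ * D) = M * ((P' : ℝ) * H / Λ) := by
      field_simp
    rw [hV, e1] at h1
    rw [e2] at h4
    rw [e3] at h5
    have e4 : (M : ℝ) * (VV n Λ a H P P' G + ((P : ℝ) + P') * H / Λ) =
        M * VV n Λ a H P P' G + M * ((P : ℝ) * H / Λ) + M * ((P' : ℝ) * H / Λ) := by
      ring
    rw [e4]
    linarith
  obtain ⟨V, hVd⟩ : ∃ V : ℝ, V = VV n Λ a H P P' G + ((P : ℝ) + P') * H / Λ := ⟨_, rfl⟩
  obtain ⟨C, hC⟩ : ∃ C : ℝ, C = 3 * D + 4 * n * H + 4 * (n : ℝ) ^ 2 * (H : ℝ) ^ 2 := ⟨_, rfl⟩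
  refine ⟨⌈C / ε⌉₊ + 1, fun M hM => ?_⟩
  have hM1 : (1 : ℝ) ≤ M := by
    have : 1 ≤ M := by omega
    exact_mod_cast this
  have hMC : C ≤ ε * M := by
    have h1 : C / ε ≤ ((⌈C / ε⌉₊ : ℕ) : ℝ) := Nat.le_ceil _
    have h2 : ((⌈C / ε⌉₊ : ℕ) : ℝ) ≤ M := by exact_mod_cast (show ⌈C / ε⌉₊ ≤ M by omega)
    have h3 : C / ε ≤ M := h1.trans h2
    rw [div_le_iff₀ hε] at h3
    linarith
  obtain ⟨S, hS⟩ : ∃ S : ℂ, S = ∑ y ∈ range M, F (y + 1) := ⟨_, rfl⟩
  have hS' : ∑ y ∈ Icc 1 M, FF n Λ a φ G ω (P * y) * conj (FF n Λ a φ G ω (P' * y)) = S := by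
    rw [hS, hFd]
    exact shf_Icc (fun y => FF n Λ a φ G ω (P * y) * conj (FF n Λ a φ G ω (P' * y))) M
  rw [hS', ← hVd]
  obtain ⟨X, hX⟩ : ∃ X : ℝ, X = ‖∑ y ∈ range M, T (y + 1)‖ := ⟨_, rfl⟩
  have hX0 : 0 ≤ X := by rw [hX]; exact norm_nonneg _
  -- the shifts
  have h1 : (H : ℝ) * ‖S‖ ≤ X + 2 * n * (H : ℝ) ^ 2 := by
    have e1 : (H : ℂ) * S - ∑ y ∈ range M, T (y + 1) =
        ∑ h ∈ range H, (∑ y ∈ range M, F (y + 1) - ∑ y ∈ range M, F (y + 1 + n * h)) := by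
      rw [Finset.sum_sub_distrib, Finset.sum_const, Finset.card_range, nsmul_eq_mul, ← hS, hT]
      congr 1
      rw [Finset.sum_comm]
    have e2 : ‖∑ h ∈ range H, (∑ y ∈ range M, F (y + 1) - ∑ y ∈ range M, F (y + 1 + n * h))‖ ≤
        2 * n * (H : ℝ) ^ 2 := by
      refine (norm_sum_le _ _).trans ?_
      have e3 : ∑ h ∈ range H, ‖∑ y ∈ range M, F (y + 1) - ∑ y ∈ range M, F (y + 1 + n * h)‖ ≤
          ∑ _h ∈ range H, (2 * n * H : ℝ) := by
        apply Finset.sum_le_sum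
        intro h hh
        rw [Finset.mem_range] at hh
        refine (shf_shift hF M (n * h)).trans ?_
        have : (h : ℝ) ≤ H := by exact_mod_cast hh.le
        push_cast
        nlinarith
      rw [Finset.sum_const, Finset.card_range, nsmul_eq_mul] at e3
      refine e3.trans (le_of_eq ?_)
      ring
    have e3 : (H : ℝ) * ‖S‖ = ‖(H : ℂ) * S‖ := by
      rw [norm_mul, Complex.norm_natCast]
    have e4 : (H : ℂ) * S = ((H : ℂ) * S - ∑ y ∈ range M, T (y + 1)) +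
        ∑ y ∈ range M, T (y + 1) := by ring
    rw [e3, e4]
    have e5 := norm_add_le ((H : ℂ) * S - ∑ y ∈ range M, T (y + 1)) (∑ y ∈ range M, T (y + 1))
    rw [← hX, e1] at e5
    rw [e1]
    linarith
  have h2 : X ^ 2 ≤ M * ((H : ℝ) ^ 2 * (M * V + 3 * D)) := by
    have e1 : X ≤ ∑ y ∈ range M, ‖T (y + 1)‖ := by
      rw [hX]
      exact norm_sum_le _ _
    have e2 : X ^ 2 ≤ (∑ y ∈ range M, ‖T (y + 1)‖) ^ 2 := pow_le_pow_left₀ hX0 e1 2
    have e3 : (∑ y ∈ range M, ‖T (y + 1)‖) ^ 2 ≤ M * ∑ y ∈ range M, ‖T (y + 1)‖ ^ 2 := by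
      have := sq_sum_le_card_mul_sum_sq (s := range M) (f := fun y => ‖T (y + 1)‖)
      rwa [Finset.card_range] at this
    have e4 : ∑ y ∈ range M, ‖T (y + 1)‖ ^ 2 ≤ (H : ℝ) ^ 2 * (M * V + 3 * D) := by
      have e5 : ∑ y ∈ range M, ‖T (y + 1)‖ ^ 2 ≤
          ∑ y ∈ range M, (H : ℝ) ^ 2 * (g (y + 1) + b P (y + 1) + b P' (y + 1)) :=
        Finset.sum_le_sum (fun y _ => hkey (y + 1))
      rw [← Finset.mul_sum] at e5
      refine e5.trans ?_
      apply mul_le_mul_of_nonneg_left _ (by positivity)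
      rw [hVd]
      exact hmean M
    have e6 := mul_le_mul_of_nonneg_left e4 (show (0 : ℝ) ≤ M by linarith)
    linarith
  have h3 : X ≤ M * H := by
    rw [hX]
    refine (norm_sum_le _ _).trans ?_
    have e1 : ∑ y ∈ range M, ‖T (y + 1)‖ ≤ ∑ _y ∈ range M, (H : ℝ) :=
      Finset.sum_le_sum (fun y _ => hTn _)
    rwa [Finset.sum_const, Finset.card_range, nsmul_eq_mul] at e1
  have h4 : (H : ℝ) ^ 2 * ‖S‖ ^ 2 ≤ (H : ℝ) ^ 2 * (M ^ 2 * V + C * M) := by
    have e1 : ((H : ℝ) * ‖S‖) ^ 2 ≤ (X + 2 * n * (H : ℝ) ^ 2) ^ 2 :=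
      pow_le_pow_left₀ (by positivity) h1 2
    have e2 : ((H : ℝ) * ‖S‖) ^ 2 = (H : ℝ) ^ 2 * ‖S‖ ^ 2 := by ring
    have e3 : (X + 2 * n * (H : ℝ) ^ 2) ^ 2 =
        X ^ 2 + 4 * n * (H : ℝ) ^ 2 * X + 4 * (n : ℝ) ^ 2 * (H : ℝ) ^ 4 := by ring
    have e4 : 4 * n * (H : ℝ) ^ 2 * X ≤ 4 * n * (H : ℝ) ^ 2 * (M * H) :=
      mul_le_mul_of_nonneg_left h3 (by positivity)
    have e5 : 4 * (n : ℝ) ^ 2 * (H : ℝ) ^ 4 ≤ 4 * (n : ℝ) ^ 2 * (H : ℝ) ^ 4 * M := by
      have : 4 * (n : ℝ) ^ 2 * (H : ℝ) ^ 4 * 1 ≤ 4 * (n : ℝ) ^ 2 * (H : ℝ) ^ 4 * M :=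
        mul_le_mul_of_nonneg_left hM1 (by positivity)
      linarith
    have e6 : (H : ℝ) ^ 2 * (M ^ 2 * V + C * M) = M * ((H : ℝ) ^ 2 * (M * V + 3 * D)) +
        4 * n * (H : ℝ) ^ 2 * (M * H) + 4 * (n : ℝ) ^ 2 * (H : ℝ) ^ 4 * M := by
      rw [hC]
      ring
    rw [e2, e3] at e1
    rw [e6]
    linarith
  have h5 : ‖S‖ ^ 2 ≤ M ^ 2 * V + C * M :=
    le_of_mul_le_mul_left h4 (by positivity)
  have h6 : C * M ≤ ε * M * M := mul_le_mul_of_nonneg_right hMC (by linarith)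
  have h7 : (V + ε) * (M : ℝ) ^ 2 = M ^ 2 * V + ε * M * M := by ring
  rw [h7]
  linarith

end Pool.Agent.Helper16.MD
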